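import Pool.Agent.Run7.h773.YT.Main

/-!
# `MP_ed556a_co`, question 2: `Y(T) ≤ 9 S(T) + P(T) + 6` for all trees

`P(T)`, `S(T)`, `Y(T)` are the numbers of subtrees of the tree `T` which are isomorphic to the path on five
vertices, to the star `K_{1,4}` and to the Y-shaped tree (`cP`, `cS`, `cY`; Mathlib's
`SimpleGraph.copyCount`, the number of subgraphs isomorphic to a given graph). Question 2 asks whether
there is a constant `K` with `Y(T) ≤ 9 S(T) + P(T) + K` for all trees `T`.

**Answer.** Yes, and the least such constant is `6`.

## Proof

Write `x v = deg v - 1`. By the counting formulas of the starting project `Q117/YT`,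
`Y - 9 S - P` is the sum over all vertices `v` of
`F(v) = C(x v, 2) ∑ x u - e₂(x u) - 9 C(x v + 1, 4)`, where `u` runs through the neighbours of `v` and `e₂` is
the second elementary symmetric function. There is an antisymmetric function `φ(a, b)` with
`F(v) ≤ 3 (2 - deg v) + ∑ φ(x v, x u)` (`vertex`), namely, for `a < b`, `φ(0, b) = -3`, `φ(1, b) = -1`,
`φ(2, b) = b - 3` and `φ(a, b) = C(a, 2) (b - a)` for `a ≥ 3`. It was found by duality from the dynamic
program which computes the maximum of `Y - 9 S - P` over all trees. Summation over all vertices gives
`Y - 9 S - P ≤ 3 · 2 = 6`, because the terms `φ` cancel in pairs and a tree has one vertex more than edges.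

Equality holds for the tree on twelve vertices which consists of a path with four vertices and two
leaves at each of them (`Y = 36`, `S = 2`, `P = 12`).
-/

set_option autoImplicit false

namespace Pool.Agent.Results.MP_ed556a_co.LeastConstant

open Pool.Agent.Q117.YT

/-- **The least constant is `6`.** The number `6` is the least real number `K` such that
`Y(T) ≤ 9 S(T) + P(T) + K` for all finite trees `T`. In particular question 2 has a positive answer. -/
theorem result : IsLeast {K : ℝ | ∀ (V : Type) [Fintype V] (T : SimpleGraph V), T.IsTree →
    (cY T : ℝ) ≤ 9 * (cS T : ℝ) + (cP T : ℝ) + K} 6 := by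
  constructor
  · intro V _ T hT
    have h := Run7.h773.YT.main T hT
    exact_mod_cast h
  · intro K hK
    have h := hK (Fin 12) Run7.h773.YT.ext Run7.h773.YT.ext_isTree
    have h2 : (cY Run7.h773.YT.ext : ℝ)
        = 9 * (cS Run7.h773.YT.ext : ℝ) + (cP Run7.h773.YT.ext : ℝ) + 6 := by
      exact_mod_cast Run7.h773.YT.ext_eq
    linarith

end Pool.Agent.Results.MP_ed556a_co.LeastConstant
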